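import Mathlib
import Pool.Agent.H17.GS.Stm
import Pool.Agent.H77.TF.Pri

set_option autoImplicit false

open MvPolynomial Module Pool.Agent.H77.TF Pool.Agent.H17.GS

namespace Pool.Agent.H91.GS

variable {K : Type} [Field K]

noncomputable section

attribute [local instance] MvPolynomial.gradedAlgebra

/-- the derivation of the field `v` -/
def D (v : Fin 3 → MvPolynomial (Fin 3) K) (f : MvPolynomial (Fin 3) K) : MvPolynomial (Fin 3) K :=
  ∑ j, v j * pderiv j f

theorem D_mul (v : Fin 3 → MvPolynomial (Fin 3) K) (f g : MvPolynomial (Fin 3) K) :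
    D v (f * g) = f * D v g + g * D v f := by
  unfold D
  rw [Finset.mul_sum, Finset.mul_sum, ← Finset.sum_add_distrib]
  refine Finset.sum_congr rfl fun j _ => ?_
  rw [Derivation.leibniz, smul_eq_mul, smul_eq_mul]
  ring

theorem D_lin (v : Fin 3 → MvPolynomial (Fin 3) K) (a : Fin 3 → K) : D v (lin a) = evl a v := by
  unfold D evl lin
  refine Finset.sum_congr rfl fun j _ => ?_
  rw [map_sum, Finset.sum_eq_single j]
  · rw [Derivation.leibniz]
    simp [mul_comm]
  · intro b _ hb
    rw [Derivation.leibniz, pderiv_X_of_ne hb]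
    simp
  · intro h
    exact absurd (Finset.mem_univ _) h

theorem D_one (v : Fin 3 → MvPolynomial (Fin 3) K) : D v 1 = 0 := by
  unfold D
  simp

theorem D_sub (v w : Fin 3 → MvPolynomial (Fin 3) K) (f : MvPolynomial (Fin 3) K) :
    D (v - w) f = D v f - D w f := by
  unfold D
  rw [← Finset.sum_sub_distrib]
  exact Finset.sum_congr rfl fun j _ => by rw [Pi.sub_apply, sub_mul]

theorem D_smul (g : MvPolynomial (Fin 3) K) (v : Fin 3 → MvPolynomial (Fin 3) K)
    (f : MvPolynomial (Fin 3) K) : D (g • v) f = g * D v f := by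
  unfold D
  rw [Finset.mul_sum]
  exact Finset.sum_congr rfl fun j _ => by rw [Pi.smul_apply, smul_eq_mul, mul_assoc]

theorem D_prod_dvd {ν : Type} (A : ν → Fin 3 → K) (v : Fin 3 → MvPolynomial (Fin 3) K)
    (hv : v ∈ LD A) (s : Finset ν) : ∏ i ∈ s, lin (A i) ∣ D v (∏ i ∈ s, lin (A i)) := by
  classical
  induction s using Finset.induction_on with
  | empty => simp
  | insert a s ha ih =>
    rw [Finset.prod_insert ha, D_mul, D_lin]
    refine dvd_add (mul_dvd_mul_left _ ih) ?_
    rw [mul_comm]
    exact mul_dvd_mul_left _ (hv a)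

theorem D_euler {ν : Type} (A : ν → Fin 3 → K) (s : Finset ν) :
    D X (∏ i ∈ s, lin (A i)) = (s.card : MvPolynomial (Fin 3) K) * ∏ i ∈ s, lin (A i) := by
  classical
  induction s using Finset.induction_on with
  | empty => simp [D_one]
  | insert a s ha ih =>
    rw [Finset.prod_insert ha, D_mul, D_lin, ih, Finset.card_insert_of_notMem ha, evl_X]
    push_cast
    ring

theorem lin_hom (a : Fin 3 → K) : (lin a).IsHomogeneous 1 := by
  unfold lin
  exact IsHomogeneous.sum _ _ _ fun i _ => by
    simpa using (isHomogeneous_C (Fin 3) (a i)).mul (isHomogeneous_X K i)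

theorem prod_hom {ν : Type} (A : ν → Fin 3 → K) (s : Finset ν) :
    (∏ i ∈ s, lin (A i)).IsHomogeneous s.card := by
  have := IsHomogeneous.prod s (fun i => lin (A i)) (fun _ => 1) fun i _ => lin_hom (A i)
  simpa using this

/-- multiplication by a homogeneous polynomial and homogeneous components -/
theorem comp_mul (n m : ℕ) (f g : MvPolynomial (Fin 3) K) (hf : f.IsHomogeneous n) :
    homogeneousComponent (n + m) (f * g) = f * homogeneousComponent m g := by
  classical
  have h := DirectSum.coe_decompose_mul_add_of_left_mem (homogeneousSubmodule (Fin 3) K) (i := n) (j := m)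
    (a := f) (b := g) hf
  have key : ∀ (φ : MvPolynomial (Fin 3) K) (i : ℕ),
      ((DirectSum.decompose (homogeneousSubmodule (Fin 3) K) φ) i : MvPolynomial (Fin 3) K) =
        homogeneousComponent i φ := fun φ i => decomposition.decompose'_apply φ i
  rw [key, key] at h
  exact h

end

theorem eqv : S_EQV := by
  intro K _ _ n A hA hn e
  classical
  set f : MvPolynomial (Fin 3) K := ∏ i, lin (A i) with hf
  have hpr : ∀ i, Prime (lin (A i)) := fun i => (pri K 3 (A i) (hA.1 i)).1
  have hf0 : f ≠ 0 := Finset.prod_ne_zero_iff.mpr fun i _ => (hpr i).ne_zero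
  have hfh : f.IsHomogeneous n := by
    have := prod_hom A Finset.univ
    simpa using this
  have hn0 : ((n : ℕ) : MvPolynomial (Fin 3) K) ≠ 0 := by
    exact_mod_cast (by omega : n ≠ 0)
  have hE : D X f = (n : MvPolynomial (Fin 3) K) * f := by
    have := D_euler A Finset.univ
    simpa using this
  have hsyz : ∀ v, IsSyz A v ↔ D v f = 0 := fun v => Iff.rfl
  constructor
  · rintro ⟨v, hv, hh, h0⟩
    rw [hsyz] at hv
    refine ⟨v, ?_, hh, ?_⟩
    · intro i
      have h1 : f = lin (A i) * ∏ k ∈ Finset.univ.erase i, lin (A k) :=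
        (Finset.mul_prod_erase _ _ (Finset.mem_univ i)).symm
      rw [h1, D_mul, D_lin] at hv
      have h2 : lin (A i) ∣ (∏ k ∈ Finset.univ.erase i, lin (A k)) * evl (A i) v := by
        rw [add_comm, add_eq_zero_iff_eq_neg] at hv
        rw [hv]
        exact (Dvd.intro _ rfl).neg_right
      rcases (hpr i).dvd_or_dvd h2 with h3 | h3
      · obtain ⟨k, hk, hd⟩ := (Prime.dvd_finsetProd_iff (hpr i) _).mp h3
        obtain ⟨c, hc⟩ := (pri K 3 (A i) (hA.1 i)).2 (A k) hd
        exact absurd hc (hA.2 k i (Finset.ne_of_mem_erase hk) c)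
      · exact h3
    · by_contra hc
      push Not at hc
      apply h0
      funext i
      have h1 : X i * D v f = v i * D X f := by
        unfold D
        rw [Finset.mul_sum, Finset.mul_sum]
        refine Finset.sum_congr rfl fun j _ => ?_
        rw [← mul_assoc, hc i j]
        ring
      rw [hv, hE, mul_zero] at h1
      have h2 := h1.symm
      rcases mul_eq_zero.mp h2 with h3 | h3
      · exact h3
      · exact absurd h3 (mul_ne_zero hn0 hf0)
  · rintro ⟨v, hv, hh, i, j, hij⟩
    obtain ⟨g, hg⟩ := D_prod_dvd A v hv Finset.univ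
    rw [← hf] at hg
    -- the homogeneous component of `g`
    have hDh : (D v f).IsHomogeneous (e + (n - 1)) := by
      unfold D
      exact IsHomogeneous.sum _ _ _ fun j _ => (hh j).mul hfh.pderiv
    have key : ∃ g' : MvPolynomial (Fin 3) K, D v f = f * g' ∧ ∀ j, (g' * X j).IsHomogeneous e := by
      rcases Nat.eq_zero_or_pos e with he | he
      · refine ⟨0, ?_, fun j => by rw [zero_mul]; exact isHomogeneous_zero _ _ _⟩
        rw [mul_zero]
        have h1 : (D v f).totalDegree ≤ e + (n - 1) := hDh.totalDegree_le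
        by_contra hne
        have h2 : f.totalDegree = n := hfh.totalDegree hf0
        have hg0 : g ≠ 0 := by
          rintro rfl
          exact hne (by rw [hg, mul_zero])
        have h3 : (D v f).totalDegree = f.totalDegree + g.totalDegree := by
          rw [hg, totalDegree_mul_of_isDomain hf0 hg0]
        omega
      · refine ⟨homogeneousComponent (e - 1) g, ?_, fun j => ?_⟩
        · have h1 : e + (n - 1) = n + (e - 1) := by omega
          rw [h1] at hDh
          have h2 := homogeneousComponent_eq_self hDh
          rw [hg, comp_mul _ _ _ _ hfh] at h2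
          rw [h2, hg]
        · have := (homogeneousComponent_isHomogeneous (e - 1) g).mul (isHomogeneous_X K j)
          rwa [Nat.sub_add_cancel he] at this
    obtain ⟨g', hg', hgh⟩ := key
    set c : MvPolynomial (Fin 3) K := C ((n : K)⁻¹) with hc
    have hcn : c * (n : MvPolynomial (Fin 3) K) = 1 := by
      have : ((n : ℕ) : MvPolynomial (Fin 3) K) = C ((n : ℕ) : K) := by simp
      rw [hc, this, ← C_mul, inv_mul_cancel₀ (by exact_mod_cast (by omega : n ≠ 0)), C_1]
    refine ⟨v - (c * g') • X, ?_, fun j => ?_, ?_⟩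
    · rw [hsyz, D_sub, D_smul, hE, hg']
      calc f * g' - c * g' * (↑n * f) = f * g' - (c * ↑n) * (f * g') := by ring
        _ = 0 := by rw [hcn, one_mul, sub_self]
    · rw [Pi.sub_apply, Pi.smul_apply, smul_eq_mul, mul_assoc]
      refine (hh j).sub ?_
      have := (isHomogeneous_C (Fin 3) ((n : K)⁻¹)).mul (hgh j)
      simpa using this
    · intro h0
      apply hij
      have hvX : v = (c * g') • X := sub_eq_zero.mp h0
      rw [hvX]
      simp only [Pi.smul_apply, smul_eq_mul]
      ring

end Pool.Agent.H91.GS
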